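import Mathlib
import Pool.Agent.H58.Kl2

set_option autoImplicit false

namespace Pool.Agent.Results.MP_7f2f72_gt.Symm

open Pool.Agent.H58.Kl MeasureTheory Set
open scoped RealInnerProductSpace

theorem result (K : Set (EuclideanSpace ℝ (Fin 2))) (hK : IsCompact K) (hc : Convex ℝ K)
    (hi : (interior K).Nonempty) (O : EuclideanSpace ℝ (Fin 2))
    (H : ∀ u : EuclideanSpace ℝ (Fin 2), u ≠ 0 →
      μH[1] (frontier K ∩ {x | 0 < inner ℝ u (x - O)}) = μH[1] (frontier K ∩ {x | inner ℝ u (x - O) < 0})) :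
    (fun x => (2 : ℝ) • O - x) '' frontier K = frontier K := by
  let T := Homeomorph.subRight O
  have hT : Isometry T := fun x y => by simp [T]
  have h1 : IsCompact (T '' K) := hK.image T.continuous
  have h2 : Convex ℝ (T '' K) := by simpa [T, sub_eq_add_neg, add_comm] using hc.translate (-O)
  have h3 : (interior (T '' K)).Nonempty := by rw [← T.image_interior]; exact hi.image _
  have h4 : ∀ S : Set E, μH[1] (frontier (T '' K) ∩ S) = μH[1] (frontier K ∩ T ⁻¹' S) := fun S => by
    rw [← T.image_frontier, ← image_inter_preimage, hT.hausdorffMeasure_image (Or.inl zero_le_one)]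
  have h5 : ∀ u : E, u ≠ 0 → μH[1] (frontier (T '' K) ∩ {x | 0 < ⟪u, x⟫}) =
      μH[1] (frontier (T '' K) ∩ {x | ⟪u, x⟫ < 0}) := fun u hu => by rw [h4, h4]; exact H u hu
  have hn := mem_interior_iff_mem_nhds.1 (zero_int h1 h2 h3 h5)
  have h6 : ∀ x ∈ frontier K, (2 : ℝ) • O - x ∈ frontier K := fun x hx => by
    have a := (gauge_eq_one_iff_mem_frontier h2 hn).2 (T.image_frontier K ▸ mem_image_of_mem T hx)
    have b := le_antisymm (symm0 h1 h2 h3 h5 (T x)) (by simpa using symm0 h1 h2 h3 h5 (-T x))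
    obtain ⟨y, hy, e⟩ := (T.image_frontier K).ge ((gauge_eq_one_iff_mem_frontier h2 hn).1 (b.trans a))
    have e' : y - O = -(x - O) := e
    rwa [show (2 : ℝ) • O - x = y by rw [eq_add_of_sub_eq e']; module]
  exact Subset.antisymm (by rintro _ ⟨x, hx, rfl⟩; exact h6 x hx) fun x hx => ⟨_, h6 x hx, by simp⟩

end Pool.Agent.Results.MP_7f2f72_gt.Symm
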